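import Pool.Agent.Helper78.LD8.Defs
import Pool.Agent.Helper76.LD6.Pc
import Pool.Agent.Helper17.LD6.H1

/-!
# LD8, block TST8: `test_few` (adaptation of `Helper67/LD6/TestFew.lean`)
-/

set_option autoImplicit false

namespace Pool.Agent.Helper8.LD8

open Set MeasureTheory Filter Topology
open Pool.Agent.Helper41.LD6 (hr vr lv Qs vq lev dm Lv om GQ Gr Wq)
open Pool.Agent.Helper78.LD8
open Pool.Agent.Helper76.LD6 (brk few6)
open Pool.Agent.Helper17.LD6 (hr_gr)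

variable {F : Pm} {K : ℕ} {ℓst a ℓ : ℝ} {q : Fin (F.d + 1) → ℕ}

open Classical in
/-- the children on which the test is not constant: `brk` for each `U (t + i)`, `few6` -/
theorem test_few (hF : F.Ok) (hK : F.Big K) (hℓ : 0 < ℓ) {t : ℕ} (ht : F.V K ℓst (t + F.d) * ℓ ≤ 2 ^ (11 * F.E K)) (hqs : q ∈ Qs F.d K) (a : ℝ) :
    (((Finset.range (2 ^ F.b K)).filter fun b : ℕ => ¬ ∃ v : ℝ, ∀ x ∈ Ioo (a + b * (ℓ / (2 ^ F.b K : ℕ)))
        (a + (b + 1) * (ℓ / (2 ^ F.b K : ℕ))), F.G K ℓst q t x = v).card : ℝ) ≤ 2 ^ (13 * F.E K) := by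
  have hab : a ≤ a + ℓ := by linarith
  have h1 := hF.h1
  have hq : ∀ i, q i < 2 ^ K := by
    intro i
    have h3 := (Finset.mem_filter.1 hqs).1
    rw [Fintype.mem_piFinset] at h3
    exact Finset.mem_range.1 (h3 i)
  have hbrk : ∀ i : Fin (F.d + 1), ∃ Si : Finset ℝ,
      (Si.card : ℝ) ≤ ((2 ^ K : ℕ) : ℝ) * (F.U K ℓst (t + i) (a + ℓ) - F.U K ℓst (t + i) a) + 1 ∧
      ∀ x ∈ Icc a (a + ℓ), ∀ y ∈ Icc a (a + ℓ), x ≤ y → (∀ z ∈ Si, z ∉ Ioc x y) →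
        ⌊((2 ^ K : ℕ) : ℝ) * F.U K ℓst (t + i) x⌋ = ⌊((2 ^ K : ℕ) : ℝ) * F.U K ℓst (t + i) y⌋ := by
    intro i
    refine brk hab ?_ ?_ _
    · unfold Pm.U Uf
      fun_prop
    · intro x hx y _ hxy
      unfold Pm.U Uf
      have : (0 : ℝ) ≤ F.θ ^ (F.n₀ K ℓst + (t + i)) := by positivity
      have := mul_le_mul_of_nonneg_right hxy this
      linarith
  choose Si hSi hSi' using hbrk
  set SS : Finset ℝ := Finset.univ.biUnion Si with hSS
  have hf : ∀ x ∈ Icc a (a + ℓ), ∀ y ∈ Icc a (a + ℓ), x ≤ y → (∀ z ∈ SS, z ∉ Ioc x y) →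
      F.G K ℓst q t x = F.G K ℓst q t y := by
    intro x hx y hy hxy hz
    unfold Pm.G GQ
    split_ifs with hlt
    · refine Finset.prod_congr rfl fun i _ => ?_
      exact (hr_gr (hq i)).grid _ _ (hSi' i x hx y hy hxy fun z hz' =>
        hz z (Finset.mem_biUnion.2 ⟨i, Finset.mem_univ i, hz'⟩))
    · rfl
  have h3 := few6 hℓ SS hf (B := 2 ^ F.b K) Nat.one_le_two_pow
  refine h3.trans ?_
  have hX : (1 : ℝ) ≤ (2 : ℝ) ^ K * 2 ^ (11 * F.E K) := by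
    have e1 : (1 : ℝ) ≤ (2 : ℝ) ^ K := one_le_pow₀ (by norm_num)
    have e2 : (1 : ℝ) ≤ (2 : ℝ) ^ (11 * F.E K) := one_le_pow₀ (by norm_num)
    nlinarith
  have h4 : ∀ i, ((Si i).card : ℝ) ≤ 2 * ((2 : ℝ) ^ K * 2 ^ (11 * F.E K)) := by
    intro i
    have e2 : F.V K ℓst (t + i) ≤ F.V K ℓst (t + F.d) := by
      unfold Pm.V
      exact pow_le_pow_right₀ h1.le (by have := i.2; omega)
    have e3 : F.U K ℓst (t + i) (a + ℓ) - F.U K ℓst (t + i) a ≤ 2 ^ (11 * F.E K) := by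
      have e0 : F.U K ℓst (t + i) (a + ℓ) - F.U K ℓst (t + i) a = F.V K ℓst (t + i) * ℓ := by
        unfold Pm.U Pm.V Uf
        ring
      rw [e0]
      exact (mul_le_mul_of_nonneg_right e2 hℓ.le).trans ht
    have e4 : ((2 ^ K : ℕ) : ℝ) = (2 : ℝ) ^ K := by push_cast; rfl
    have e5 := hSi i
    rw [e4] at e5
    have e6 : (2 : ℝ) ^ K * (F.U K ℓst (t + i) (a + ℓ) - F.U K ℓst (t + i) a) ≤
        (2 : ℝ) ^ K * 2 ^ (11 * F.E K) := mul_le_mul_of_nonneg_left e3 (by positivity)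
    linarith
  have h5 : (SS.card : ℝ) ≤ (F.d + 1) * (2 * ((2 : ℝ) ^ K * 2 ^ (11 * F.E K))) := by
    have e1 : (SS.card : ℝ) ≤ ∑ i, ((Si i).card : ℝ) := by
      exact_mod_cast Finset.card_biUnion_le
    refine e1.trans ((Finset.sum_le_sum fun i _ => h4 i).trans (le_of_eq ?_))
    rw [Finset.sum_const, Finset.card_univ, Fintype.card_fin, nsmul_eq_mul]
    push_cast
    ring
  refine h5.trans ?_
  have h6 : F.d + 2 + K ≤ 2 * F.E K := by
    have hZ : F.d + 4 ≤ F.Z := Nat.le_mul_of_pos_left _ (by positivity)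
    have h4 : F.Z ^ 4 ≤ K := hK
    have h5 : F.Z ≤ F.Z ^ 4 := Nat.le_self_pow (by norm_num) _
    have h7 : K ≤ K ^ F.a := Nat.le_self_pow (by have := hF.ha; omega) _
    unfold Pm.E
    omega
  have h7 : ((F.d : ℝ) + 1) ≤ 2 ^ (F.d + 1) := by
    have : F.d + 1 < 2 ^ (F.d + 1) := Nat.lt_two_pow_self
    exact_mod_cast this.le
  calc ((F.d : ℝ) + 1) * (2 * ((2 : ℝ) ^ K * 2 ^ (11 * F.E K)))
      ≤ 2 ^ (F.d + 1) * (2 * ((2 : ℝ) ^ K * 2 ^ (11 * F.E K))) :=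
        mul_le_mul_of_nonneg_right h7 (by positivity)
    _ = 2 ^ (F.d + 2 + K) * 2 ^ (11 * F.E K) := by
        rw [show F.d + 2 + K = (F.d + 1) + 1 + K by ring, pow_add, pow_add, pow_one]
        ring
    _ ≤ 2 ^ (2 * F.E K) * 2 ^ (11 * F.E K) :=
        mul_le_mul_of_nonneg_right (pow_le_pow_right₀ (by norm_num) h6) (by positivity)
    _ = 2 ^ (13 * F.E K) := by
        rw [← pow_add]
        congr 1
        ring

end Pool.Agent.Helper8.LD8
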