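import Pool.Agent.Helper8.LD8.Win
import Pool.Agent.Helper55.LD8.FO2

/-!
# LD8, block WIN8: `win`
-/

set_option autoImplicit false

namespace Pool.Agent.Helper8.LD8

open Set MeasureTheory Filter Topology
open Pool.Agent.Helper41.LD6 (hr vr lv Qs vq lev dm Lv om GQ Gr Wq)
open Pool.Agent.Helper78.LD8

variable {F : Pm} {K : ℕ} {ℓst ℓ : ℝ} {q : Fin (F.d + 1) → ℕ}

/-- WIN8 -/
theorem win (hF : F.Ok) (hK : F.Big K) (hN : F.NR K) (hℓ : 0 < ℓ) (hqs : q ∈ Qs F.d K) (a : ℝ) :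
    Wq (F.G K ℓst q) (2 * vq q) ((1 / 2) ^ (2 * F.e K)) (2 ^ (2 * K)) (F.T K ℓst ℓ) a ℓ := by
  refine win_of ?_ ?_ hF hK hN hℓ hqs a
  · intro F K ℓst ℓ q j hF hK hN hℓ p p' ϑ hpq hϑ hV hqs
    exact Pool.Agent.Helper55.LD8.fast_one hF hK hN hℓ hpq hϑ hV hqs
  · intro F K ℓst a ℓ q q' j j' hF hK hN hℓ ϑ hϑ hV hV' hqs hqs' hj hj'
    exact Pool.Agent.Helper55.LD8.fast_two hF hK hN hℓ hϑ hV hV' hqs hqs' hj hj'

end Pool.Agent.Helper8.LD8
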