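import Pool.Agent.Helper78.LD8.Defs
import Pool.Agent.Helper4.LD6.H5
import Pool.Agent.Helper17.LD6.GM

/-!
# LD8, block WIN8: the windows of a stage (adaptation of `Helper9/LD6/Win.lean`)
-/

set_option autoImplicit false

namespace Pool.Agent.Helper8.LD8

open Set MeasureTheory Filter Topology
open Pool.Agent.Helper41.LD (av var haar)
open Pool.Agent.Helper41.LD6 (hr vr lv Qs vq lev dm Lv om GQ Gr Wq)
open Pool.Agent.Helper78.LD8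
open Pool.Agent.Helper4.LD6 (vq_lo)
open Pool.Agent.Helper17.LD6 (hr_meas17 hr_abs17)

variable {F : Pm} {K : ℕ} {ℓst a ℓ : ℝ} {q : Fin (F.d + 1) → ℕ}

theorem G_meas (K : ℕ) (ℓst : ℝ) (j : ℕ) : Measurable (F.G K ℓst q j) := by
  unfold Pm.G GQ
  by_cases hj : j < 2 ^ (2 * K)
  · simp only [hj, if_true]
    refine Finset.measurable_prod _ fun i _ => (hr_meas17 (q i)).comp ?_
    unfold Pm.U Uf
    fun_prop
  · simp only [hj, if_false]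
    exact measurable_const

theorem G_bdd (K : ℕ) (ℓst : ℝ) (j : ℕ) (x : ℝ) : |F.G K ℓst q j x| ≤ 1 := by
  unfold Pm.G GQ
  by_cases hj : j < 2 ^ (2 * K)
  · rw [if_pos hj, Finset.abs_prod]
    exact Finset.prod_le_one (fun _ _ => abs_nonneg _) fun i _ => hr_abs17 _ _
  · rw [if_neg hj, abs_zero]
    exact zero_le_one

private theorem G_zero (q : Fin (F.d + 1) → ℕ) {j : ℕ} (hj : 2 ^ (2 * K) ≤ j) (x : ℝ) : F.G K ℓst q j x = 0 := by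
  unfold Pm.G GQ
  rw [if_neg (by omega)]

/-- fast from the time `T` on -/
theorem T_fast (hF : F.Ok) (hℓ : 0 < ℓ) {j : ℕ} (hj : F.T K ℓst ℓ ≤ j) : F.Th K ≤ F.V K ℓst j * ℓ := by
  have h1 := hF.h1
  obtain ⟨n, hn⟩ : ∃ n : ℕ, F.Th K / ℓ < F.θ ^ n := pow_unbounded_of_one_lt _ h1
  have hne : {n : ℕ | F.Th K ≤ F.θ ^ n * ℓ}.Nonempty := ⟨n, by
    show F.Th K ≤ F.θ ^ n * ℓ
    rw [div_lt_iff₀ hℓ] at hn
    exact hn.le⟩
  have h2 : F.Th K ≤ F.θ ^ (Tt F.θ (F.Th K) ℓ) * ℓ := Nat.sInf_mem hne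
  have h3 : Tt F.θ (F.Th K) ℓ ≤ F.n₀ K ℓst + j := by
    unfold Pm.T at hj
    omega
  refine h2.trans (mul_le_mul_of_nonneg_right ?_ hℓ.le)
  exact pow_le_pow_right₀ h1.le h3

/-- the numbers -/
private theorem nums (hF : F.Ok) (hK : F.Big K) : 1 ≤ K ∧ 4 * K ≤ F.e K ∧ K * (F.d + 1) ≤ F.e K ∧ 20 * F.e K ≤ F.E K := by
  have hZ : 1000 ≤ F.Z ∧ F.d + 4 ≤ F.Z := by
    unfold Pm.Z
    constructor <;> nlinarith [Nat.zero_le (F.X * F.d), Nat.zero_le F.X, Nat.zero_le F.d]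
  have h4 : F.Z ^ 4 ≤ K := hK
  have h5 : F.Z ≤ F.Z ^ 4 := Nat.le_self_pow (by norm_num) _
  have hK1 : 1 ≤ K := by omega
  refine ⟨hK1, ?_, ?_, ?_⟩
  · unfold Pm.e
    nlinarith
  · unfold Pm.e
    nlinarith
  · have h6 : 20 * (F.d + 4) ≤ F.Z ^ 4 := by
      calc 20 * (F.d + 4) ≤ F.Z * F.Z := Nat.mul_le_mul (by omega) hZ.2
        _ = F.Z ^ 2 := by ring
        _ ≤ F.Z ^ 4 := Nat.pow_le_pow_right (by omega) (by norm_num)
    have h7 : K ^ 2 ≤ K ^ F.a := Nat.pow_le_pow_right hK1 hF.ha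
    unfold Pm.e Pm.E
    calc 20 * ((F.d + 4) * K) = 20 * (F.d + 4) * K := by ring
      _ ≤ K * K := Nat.mul_le_mul_right _ (h6.trans h4)
      _ = K ^ 2 := by ring
      _ ≤ _ := h7

private theorem small_le {E : ℕ} (hE : 1 ≤ E) {v : ℝ} (hv : (1 / 2) ^ E ≤ v) :
    (1 / 2 : ℝ) ^ (11 * E) + (1 / 2) ^ (20 * E) ≤ 2 * v * (1 / 2) ^ (2 * E) ∧ (1 / 2 : ℝ) ^ (11 * E) + (1 / 2) ^ (20 * E) ≤ v := by
  have h1 : (1 / 2 : ℝ) ^ (11 * E) ≤ (1 / 2) ^ (3 * E) := pow_le_pow_of_le_one (by norm_num) (by norm_num) (by omega)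
  have h2 : (1 / 2 : ℝ) ^ (20 * E) ≤ (1 / 2) ^ (3 * E) := pow_le_pow_of_le_one (by norm_num) (by norm_num) (by omega)
  have h3 : (1 / 2 : ℝ) ^ (3 * E) = (1 / 2) ^ E * (1 / 2) ^ (2 * E) := by rw [← pow_add]; congr 1; omega
  have h0 : (0 : ℝ) < (1 / 2) ^ (2 * E) := by positivity
  have h5 : (1 / 2 : ℝ) ^ (2 * E) ≤ 1 / 2 := by
    calc (1 / 2 : ℝ) ^ (2 * E) ≤ (1 / 2) ^ 1 := pow_le_pow_of_le_one (by norm_num) (by norm_num) (by omega)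
      _ = 1 / 2 := by norm_num
  have h4 : (1 / 2 : ℝ) ^ (11 * E) + (1 / 2) ^ (20 * E) ≤ 2 * v * (1 / 2) ^ (2 * E) := by
    have := mul_le_mul_of_nonneg_right hv h0.le
    nlinarith
  refine ⟨h4, h4.trans ?_⟩
  have hv0 : 0 < v := lt_of_lt_of_le (by positivity) hv
  nlinarith

private theorem eta_H {E K : ℕ} (hK : 1 ≤ K) (hE : 4 * K ≤ E) : (1 / 2 : ℝ) ^ (2 * E) * (((2 ^ (2 * K) : ℕ) : ℝ) + 1) ^ 2 ≤ 1 := by
  have h1 : (1 / 2 : ℝ) ^ (2 * E) ≤ (1 / 2) ^ (8 * K) := pow_le_pow_of_le_one (by norm_num) (by norm_num) (by omega)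
  have h2 : (((2 ^ (2 * K) : ℕ) : ℝ) + 1) ^ 2 ≤ 2 ^ (8 * K) := by
    push_cast
    have h3 : (1 : ℝ) ≤ 2 ^ (2 * K) := one_le_pow₀ (by norm_num)
    have h4 : (2 : ℝ) ^ (2 * K) + 1 ≤ 2 ^ (4 * K) := by
      have h5 : (2 : ℝ) ^ (4 * K) = 2 ^ (2 * K) * 2 ^ (2 * K) := by rw [← pow_add]; congr 1; omega
      have h6 : (2 : ℝ) ≤ 2 ^ (2 * K) := by
        calc (2 : ℝ) = 2 ^ 1 := by norm_num
          _ ≤ 2 ^ (2 * K) := pow_le_pow_right₀ (by norm_num) (by omega)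
      rw [h5]
      nlinarith
    calc ((2 : ℝ) ^ (2 * K) + 1) ^ 2 ≤ (2 ^ (4 * K)) ^ 2 := pow_le_pow_left₀ (by positivity) h4 2
      _ = 2 ^ (8 * K) := by rw [← pow_mul]; congr 1; omega
  calc (1 / 2 : ℝ) ^ (2 * E) * (((2 ^ (2 * K) : ℕ) : ℝ) + 1) ^ 2 ≤ (1 / 2) ^ (8 * K) * 2 ^ (8 * K) :=
        mul_le_mul h1 h2 (by positivity) (by positivity)
    _ = 1 := by rw [← mul_pow]; norm_num

/-- WIN8 over FO8 -/
theorem win_of
    (fast_one : ∀ {F : Pm} {K : ℕ} {ℓst ℓ : ℝ} {q : Fin (F.d + 1) → ℕ} {j : ℕ}, F.Ok → F.Big K → F.NR K → 0 < ℓ → ∀ {p p' ϑ : ℝ}, p ≤ p' →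
      0 < ϑ → ϑ ≤ F.V K ℓst j * ℓ → q ∈ Qs F.d K →
      |∫ x in p..p', F.G K ℓst q j x| ≤ (1 / 2) ^ (11 * F.e K) * (p' - p) + 2 ^ (2 * F.E K) * ℓ / ϑ)
    (fast_two : ∀ {F : Pm} {K : ℕ} {ℓst a ℓ : ℝ} {q q' : Fin (F.d + 1) → ℕ} {j j' : ℕ}, F.Ok → F.Big K → F.NR K → 0 < ℓ → ∀ {ϑ : ℝ}, 0 < ϑ →
      ϑ ≤ F.V K ℓst j * ℓ → ϑ ≤ F.V K ℓst j' * ℓ → q ∈ Qs F.d K → q' ∈ Qs F.d K → j < 2 ^ (2 * K) → j' < 2 ^ (2 * K) →
      |(∫ x in a..(a + ℓ), F.G K ℓst q j x * F.G K ℓst q' j' x) - ℓ * (by classical exact (if j = j' ∧ q = q' then vq q else 0))| ≤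
        ((1 / 2) ^ (11 * F.e K) + 2 ^ (2 * F.E K) / ϑ) * ℓ)
    (hF : F.Ok) (hK : F.Big K) (hN : F.NR K) (hℓ : 0 < ℓ) (hqs : q ∈ Qs F.d K) (a : ℝ) :
    Wq (F.G K ℓst q) (2 * vq q) ((1 / 2) ^ (2 * F.e K)) (2 ^ (2 * K)) (F.T K ℓst ℓ) a ℓ := by
  classical
  obtain ⟨hK1, hE1, hE3, hE4⟩ := nums hF hK
  have hE : 1 ≤ F.e K := by omega
  have hv : (1 / 2 : ℝ) ^ F.e K ≤ vq q :=
    (pow_le_pow_of_le_one (by norm_num) (by norm_num) hE3).trans (vq_lo hqs).1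
  obtain ⟨s1, s2⟩ := small_le hE hv
  have hv0 : 0 < vq q := lt_of_lt_of_le (by positivity) hv
  have hTh : 0 < F.Th K := by unfold Pm.Th; positivity
  have small_eq : (2 : ℝ) ^ (2 * F.E K) / F.Th K = (1 / 2) ^ F.E K := by
    have h : 3 * F.E K = 2 * F.E K + F.E K := by ring
    unfold Pm.Th
    rw [h, pow_add, one_div, inv_pow]
    have h1 : (2 : ℝ) ^ (2 * F.E K) ≠ 0 := by positivity
    have h2 : (2 : ℝ) ^ (F.E K) ≠ 0 := by positivity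
    field_simp
  have small_20 : (1 / 2 : ℝ) ^ F.E K ≤ (1 / 2) ^ (20 * F.e K) := pow_le_pow_of_le_one (by norm_num) (by norm_num) hE4
  have key : ∀ j, F.T K ℓst ℓ ≤ j → F.Th K ≤ F.V K ℓst j * ℓ := fun j hj => T_fast hF hℓ hj
  refine ⟨hℓ, by positivity, by positivity, eta_H hK1 hE1, G_meas K ℓst, G_bdd K ℓst, fun j hj x => G_zero q hj x, ?_, ?_, ?_⟩
  · intro j hj
    have h := fast_one hF hK hN hℓ (p := a) (p' := a + ℓ) (by linarith) hTh (key j hj) hqs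
    refine h.trans ?_
    have e1 : (2 : ℝ) ^ (2 * F.E K) * ℓ / F.Th K = (1 / 2) ^ (F.E K) * ℓ := by rw [← small_eq]; ring
    rw [e1]
    calc (1 / 2 : ℝ) ^ (11 * F.e K) * (a + ℓ - a) + (1 / 2) ^ (F.E K) * ℓ =
          ((1 / 2 : ℝ) ^ (11 * F.e K) + (1 / 2) ^ (F.E K)) * ℓ := by ring
      _ ≤ ((1 / 2 : ℝ) ^ (11 * F.e K) + (1 / 2) ^ (20 * F.e K)) * ℓ := mul_le_mul_of_nonneg_right (by linarith) hℓ.le
      _ ≤ 2 * vq q * (1 / 2) ^ (2 * F.e K) * ℓ := mul_le_mul_of_nonneg_right s1 hℓ.le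
  · intro j hj
    by_cases hjH : j < 2 ^ (2 * K)
    · have h := fast_two hF hK hN hℓ (a := a) hTh (key j hj) (key j hj) hqs hqs hjH hjH
      rw [if_pos ⟨rfl, rfl⟩, small_eq] at h
      have h' := (abs_le.1 h).2
      have h3 := mul_le_mul_of_nonneg_right s2 hℓ.le
      have h4 := mul_le_mul_of_nonneg_right small_20 hℓ.le
      linarith
    · have : ∀ x, F.G K ℓst q j x * F.G K ℓst q j x = 0 := fun x => by rw [G_zero q (by omega) x, zero_mul]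
      simp only [this]
      simp only [intervalIntegral.integral_zero]
      positivity
  · intro j₁ j₂ hj hjj
    by_cases hjH : j₂ < 2 ^ (2 * K)
    · have h := fast_two hF hK hN hℓ (a := a) hTh (key j₁ hj) (key j₂ (by omega)) hqs hqs (by omega) hjH
      rw [if_neg (fun h => hjj.ne h.1), small_eq, mul_zero, sub_zero] at h
      refine h.trans (mul_le_mul_of_nonneg_right (le_trans ?_ s1) hℓ.le)
      linarith
    · have : ∀ x, F.G K ℓst q j₁ x * F.G K ℓst q j₂ x = 0 := fun x => by rw [G_zero q (j := j₂) (by omega) x, mul_zero]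
      simp only [this]
      simp only [intervalIntegral.integral_zero, abs_zero]
      positivity

end Pool.Agent.Helper8.LD8
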